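import Mathlib
import Pool.Agent.R493.SC.Geo
import Pool.Agent.R493.CP.Nest

/-!
# Classes of positions for several geometric families at several scales

For `T` classes of `K` positions there are `(5 / 18) ^ R T` classes and a member of each of them such that for all
`r < R` the numbers `b_r ^ v n + c_r` (`v` one of these positions) are often prime together, at any scale `N_r`.
-/

set_option autoImplicit false

namespace Pool.Agent.J4H78.CC

open Finset Filter
open Pool.Agent.Y827.GS (cntN cntN_anti Adf)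
open Pool.Agent.R493.CP (nestG)
open Pool.Agent.R493.SC (Pf Pf_anti classesN geo_adf geo_loc cntG cntN_le_cntG log_loss)

open Classical in
/-- classes of linear forms for several families at several scales -/
theorem classesSC (R T : ℕ) : ∃ K C : ℕ, 1 ≤ K ∧ ∀ A : ℕ, ∃ N₀ : ℕ,
    ∀ N : Fin R → ℕ, (∀ ρ, N₀ ≤ N ρ) → ∀ L : Fin R → ℕ → ℤ × ℤ, ∀ H : Fin T → Fin K → ℕ,
    Function.Injective (fun x : Fin T × Fin K => H x.1 x.2) →
    (∀ ρ, Set.InjOn (L ρ) (Set.range (fun x : Fin T × Fin K => H x.1 x.2))) →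
    (∀ ρ g i, Adf A (N ρ) (L ρ (H g i))) →
    (∀ ρ, ∀ p : ℕ, p.Prime → ∃ r : ℤ, ∀ g i, ¬ (p : ℤ) ∣ (L ρ (H g i)).1 * r + (L ρ (H g i)).2) →
    ∃ (S : Finset (Fin T)) (c : Fin T → Fin K), 5 ^ R * T ≤ 18 ^ R * S.card ∧
      ∀ ρ, Pf (L ρ) C (N ρ) (S.image (fun g => H g (c g))) := by
  obtain ⟨K₁, C, hK₁, hcl⟩ := classesN T
  obtain ⟨K₂, hK₂⟩ := nestG R T K₁
  refine ⟨K₂ + 1, C, by omega, fun A => ?_⟩
  obtain ⟨N₀, hN₀⟩ := hcl A
  refine ⟨N₀, fun N hN L H hHinj hinj hAd hloc => ?_⟩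
  obtain ⟨S, c, hS, hG⟩ := hK₂ ℕ (fun ρ F => Pf (L ρ) C (N ρ) F)
    (fun ρ F F' h1 h2 => Pf_anti _ _ _ _ _ h1 h2) (fun g i => H g (Fin.castSucc i)) (by
      rintro ⟨g, i⟩ ⟨g', i'⟩ h
      have h1 := hHinj (a₁ := (g, Fin.castSucc i)) (a₂ := (g', Fin.castSucc i')) h
      rw [Prod.mk.injEq] at h1 ⊢
      exact ⟨h1.1, Fin.castSucc_injective _ h1.2⟩) (by
      intro ρ t A' hA' hA'inj
      have hAV : ∀ g i, ∃ j, A' g i = H g j := fun g i => by
        obtain ⟨j, hj⟩ := hA' g i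
        exact ⟨_, hj⟩
      have hAr : ∀ g i, A' g i ∈ Set.range (fun x : Fin T × Fin (K₂ + 1) => H x.1 x.2) := fun g i => by
        obtain ⟨j, hj⟩ := hAV g i
        exact ⟨(g, j), hj.symm⟩
      have htT : t.card ≤ T := by
        have := card_le_univ t
        rwa [Fintype.card_fin] at this
      set e := t.orderEmbOfFin rfl with he
      have hemem : ∀ g, e g ∈ t := fun g => t.orderEmbOfFin_mem rfl g
      obtain ⟨S, c, hS, hc⟩ := hN₀ (N ρ) (hN ρ) t.card htT
        (fun g i => L ρ (A' (e g) i)) (by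
          intro x y hxy
          have h2 := hinj ρ (hAr _ _) (hAr _ _) hxy
          have h3 := hA'inj (a₁ := (e x.1, x.2)) (a₂ := (e y.1, y.2)) h2
          rw [Prod.mk.injEq] at h3
          exact Prod.ext (e.injective h3.1) h3.2)
        (fun g i => by
          obtain ⟨j, hj⟩ := hAV (e g) i
          show Adf A (N ρ) (L ρ (A' (e g) i))
          rw [hj]
          exact hAd ρ _ _)
        (fun p hp _ => by
          obtain ⟨r, hr⟩ := hloc ρ p hp
          refine ⟨r, fun g i => ?_⟩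
          obtain ⟨j, hj⟩ := hAV (e g) i
          simp only [hj]
          exact hr _ _)
      refine ⟨S.map e.toEmbedding, ?_, ?_,
        Function.extend e c (fun _ => ⟨0, hK₁⟩), ?_⟩
      · intro i hi
        obtain ⟨g, _, rfl⟩ := Finset.mem_map.1 hi
        exact hemem g
      · rw [card_map]
        exact hS
      · unfold Pf
        have e1 : ((S.map e.toEmbedding).image (fun g => A' g ((Function.extend e
            c (fun _ => ⟨0, hK₁⟩)) g))).image (L ρ) =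
            S.image (fun g => L ρ (A' (e g) (c g))) := by
          rw [Finset.map_eq_image, image_image, image_image]
          apply image_congr
          intro g _
          have e2 : (e.toEmbedding : Fin t.card → Fin T) = e := rfl
          simp only [Function.comp, e2]
          rw [e.injective.extend_apply]
        rw [e1]
        exact hc)
  exact ⟨S, fun g => Fin.castSucc (c g), hS, hG⟩

open Classical in
/-- classes of positions for several geometric families at several scales; `W` bounds the positions -/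
theorem geoClasses (R T : ℕ) : ∃ K B : ℕ, 1 ≤ K ∧ ∀ W : ℕ,
    ∀ (d : Fin R → ℕ) (c : Fin R → ℤ), (∀ ρ, 2 ≤ d ρ ∧ IsCoprime (d ρ : ℤ) (c ρ)) →
    ∃ D N₀ : ℕ, ∀ N : Fin R → ℕ, (∀ ρ, N₀ ≤ N ρ) → ∀ H : Fin T → Fin K → ℕ,
    Function.Injective (fun x : Fin T × Fin K => H x.1 x.2) → (∀ g i, H g i ≤ W) →
    ∃ (S : Finset (Fin T)) (σ : Fin T → Fin K), 5 ^ R * T ≤ 18 ^ R * S.card ∧
      ∀ ρ, (N ρ : ℝ) / (Real.log (N ρ)) ^ B ≤
        (cntG (d ρ) (c ρ) D (S.image (fun g => H g (σ g))) (N ρ) : ℝ) := by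
  obtain ⟨K, C, hK, h⟩ := classesSC R T
  refine ⟨K, C + 1, hK, fun W d c hdc => ?_⟩
  set E : ℕ := ∑ ρ, (d ρ ^ W + (c ρ).natAbs) + 1 with hE
  have hE1 : ∀ ρ, d ρ ^ W + (c ρ).natAbs ≤ E := fun ρ =>
    (Finset.single_le_sum (f := fun ρ => d ρ ^ W + (c ρ).natAbs) (fun _ _ => Nat.zero_le _)
      (mem_univ ρ)).trans (Nat.le_succ _)
  have hE0 : 1 ≤ E := Nat.le_add_left _ _
  obtain ⟨N₀, hN₀⟩ := h E
  obtain ⟨N₁, hN₁⟩ := log_loss C (4 * E) (by omega)
  refine ⟨6 * E, N₀ + N₁ + E, fun N hN H hHinj hHW => ?_⟩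
  have hNE : ∀ ρ, E ≤ N ρ := fun ρ => (Nat.le_add_left _ _).trans (hN ρ)
  obtain ⟨S, σ, hS, hG⟩ := hN₀ (fun ρ => 4 * E * N ρ) (fun ρ => by
      have h2 := hN ρ
      have h3 : 1 * N ρ ≤ 4 * E * N ρ := Nat.mul_le_mul_right _ (by omega)
      show N₀ ≤ 4 * E * N ρ
      omega)
    (fun ρ v => ((d ρ : ℤ) ^ v, (d ρ : ℤ) ^ v * (N ρ + E) + c ρ)) H hHinj
    (fun ρ u _ v _ huv => by
      simp only [Prod.mk.injEq] at huv
      have h3 : d ρ ^ u = d ρ ^ v := by exact_mod_cast huv.1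
      exact Nat.pow_right_injective (hdc ρ).1 h3)
    (fun ρ g i => geo_adf (hdc ρ).1 (hdc ρ).2 ((Nat.le_add_right _ _).trans (hE1 ρ))
      ((Nat.le_add_left _ _).trans (hE1 ρ)) (hHW g i) (hNE ρ))
    (fun ρ p hp => by
      obtain ⟨r, hr⟩ := geo_loc (d := d ρ) (E := E) (N := N ρ) (hdc ρ).2 hp
      exact ⟨r, fun g i => hr _⟩)
  refine ⟨S, σ, hS, fun ρ => ?_⟩
  refine (hN₁ (N ρ) (by have := hN ρ; omega)).trans ((hG ρ).trans ?_)
  rw [Nat.cast_le]
  exact cntN_le_cntG (d := d ρ) (c := c ρ) hE0 (hNE ρ) (S.image (fun g => H g (σ g)))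

end Pool.Agent.J4H78.CC
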