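import Mathlib
import Pool.Agent.J4H78.CC.Classes
import Pool.Agent.Y877.CombS

/-!
# Almost every vector of positions has a bounded multiple which is carried
-/

set_option autoImplicit false

namespace Pool.Agent.J4H78.CC

open Finset Filter
open Pool.Agent.R493.SC (cntG)
open Pool.Agent.Y877 (Wd Ln pt combD act act_pos act_le)
open Pool.Agent.H602R3.DHJ (dn av LFr Pr)

open Classical in
/-- a line in every dense set of words -/
theorem dens_line (k : ℕ) (δ : ℝ) (hδ : 0 < δ) : ∃ N : ℕ, ∀ S : Finset (Wd k N),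
    δ * Fintype.card (Wd k N) ≤ S.card → ∃ V : Ln k N, Pr V ∧ ∀ i, pt V i ∈ S := by
  obtain ⟨N, hN⟩ := Pool.Agent.Y877.dhjT (Fin (k + 1)) δ hδ
  refine ⟨N, fun S hS => ?_⟩
  have hpos : (0 : ℝ) < Fintype.card (Wd k N) := by exact_mod_cast Fintype.card_pos
  have h1 : δ ≤ dn (S : Set (Wd k N)) := by
    unfold dn av
    rw [le_div_iff₀ hpos]
    have h2 : ∑ x : Wd k N, (S : Set (Wd k N)).indicator (fun _ => (1 : ℝ)) x = S.card := by
      simp only [Set.indicator_apply, mem_coe]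
      rw [sum_ite_mem, univ_inter, sum_const, nsmul_eq_mul, mul_one]
    rw [h2]
    exact hS
  have hnl : ¬ LFr (S : Set (Wd k N)) := fun hl => absurd (hN _ hl) (not_lt.2 h1)
  unfold LFr at hnl
  push Not at hnl
  obtain ⟨V, hV, hVW⟩ := hnl
  exact ⟨V, hV, fun i => mem_coe.1 (hVW i)⟩

/-- the number of the `n ∈ [N, D N]` such that `n + c` and all the numbers `b ^ (v l) n + c` are primes -/
def count {k : ℕ} (b : ℕ) (c : ℤ) (D N : ℕ) (v : Fin k → ℕ) : ℕ :=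
  ((Icc N (D * N)).filter (fun n : ℕ => ((n : ℤ) + c).toNat.Prime ∧
    ∀ l, ((b : ℤ) ^ v l * n + c).toNat.Prime)).card

open Classical in
/-- **Main theorem.** -/
theorem mult (R k : ℕ) : ∃ L B : ℕ, ∀ ε : ℝ, 0 < ε → ∃ C : ℕ, ∀ (u : Fin k → ℕ) (H : ℕ), C ≤ H →
    ∀ (b : Fin R → ℕ) (c : Fin R → ℤ), (∀ ρ, 2 ≤ b ρ ∧ IsCoprime (b ρ : ℤ) (c ρ)) →
    ∃ D N₀ : ℕ, ∀ N : Fin R → ℕ, (∀ ρ, N₀ ≤ N ρ) →
    (1 - ε) * (H : ℝ) ^ k ≤ (((Fintype.piFinset (fun l => Ioc (u l) (u l + H))).filter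
      (fun h => ∃ d : ℕ, 1 ≤ d ∧ d ≤ L ∧ ∀ ρ, (N ρ : ℝ) / (Real.log (N ρ)) ^ B ≤
        (count (b ρ) (c ρ) D (N ρ) (fun l => d * h l) : ℝ))).card : ℝ) := by
  obtain ⟨M, hM⟩ := dens_line k ((5 / 18 : ℝ) ^ R) (by positivity)
  obtain ⟨T, hT⟩ : ∃ T, Fintype.card (Wd k M) = T := ⟨_, rfl⟩
  have e : Fin T ≃ Wd k M := (Fintype.equivFinOfCardEq hT).symm
  obtain ⟨K, B, hK, hgeo⟩ := geoClasses R T
  refine ⟨M, B, fun ε hε => ?_⟩
  obtain ⟨C₁, hC₁, HB⟩ := combD k M K 1 hK le_rfl ε hε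
  refine ⟨C₁, fun u H hH b c hbc => ?_⟩
  obtain ⟨W, hW⟩ : ∃ W, W = C₁ * (∑ l, u l + H) := ⟨_, rfl⟩
  obtain ⟨D, N₀, hN₀⟩ := hgeo W b c hbc
  obtain ⟨Q, hQ⟩ : ∃ Q, Q = ∑ ρ, b ρ ^ W := ⟨_, rfl⟩
  have hbQ : ∀ ρ, b ρ ^ W ≤ Q := fun ρ => by
    rw [hQ]
    exact Finset.single_le_sum (f := fun ρ => b ρ ^ W) (fun _ _ => Nat.zero_le _) (mem_univ ρ)
  refine ⟨Q * D, N₀, fun N hN => ?_⟩
  by_contra hcon
  push Not at hcon
  obtain ⟨Good, hGood⟩ : ∃ Good : (Fin k → ℕ) → Prop, Good = fun h => ∃ d : ℕ, 1 ≤ d ∧ d ≤ M ∧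
      ∀ ρ, (N ρ : ℝ) / (Real.log (N ρ)) ^ B ≤
        (count (b ρ) (c ρ) (Q * D) (N ρ) (fun l => d * h l) : ℝ) := ⟨_, rfl⟩
  obtain ⟨Y, hY⟩ : ∃ Y : Finset (Fin k → ℕ), Y = Fintype.piFinset (fun l => Ioc (u l) (u l + H)) :=
    ⟨_, rfl⟩
  have hgoodeq : (((Fintype.piFinset (fun l => Ioc (u l) (u l + H))).filter
      (fun h => ∃ d : ℕ, 1 ≤ d ∧ d ≤ M ∧ ∀ ρ, (N ρ : ℝ) / (Real.log (N ρ)) ^ B ≤
        (count (b ρ) (c ρ) (Q * D) (N ρ) (fun l => d * h l) : ℝ))).card : ℝ) =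
      ((Y.filter (fun h => Good h)).card : ℝ) := by
    rw [hGood, hY]
  rw [hgoodeq] at hcon
  obtain ⟨E, hE⟩ : ∃ E, E = Y.filter (fun h => ¬ Good h) := ⟨_, rfl⟩
  have hYc : Y.card = H ^ k := by
    rw [hY, Fintype.card_piFinset]
    have h3 : ∀ l, (Ioc (u l) (u l + H)).card = H := by
      intro l
      rw [Nat.card_Ioc]
      omega
    simp only [h3, prod_const, card_univ, Fintype.card_fin]
  have hsum : (Y.filter (fun h => Good h)).card + E.card = H ^ k := by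
    rw [hE, card_filter_add_card_filter_not, hYc]
  have hsumr : ((Y.filter (fun h => Good h)).card : ℝ) + (E.card : ℝ) = (H : ℝ) ^ k := by
    exact_mod_cast hsum
  have hEc : ε * (H : ℝ) ^ k ≤ E.card := by nlinarith
  -- the vectors of integers
  obtain ⟨E', hE'⟩ : ∃ E' : Finset (Fin k → ℤ), E' = E.image (fun h l => (h l : ℤ)) := ⟨_, rfl⟩
  have hE'c : E'.card = E.card := by
    rw [hE']
    apply card_image_of_injective
    intro h h' hh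
    funext l
    have h6 : ((h l : ℕ) : ℤ) = ((h' l : ℕ) : ℤ) := congrFun hh l
    exact_mod_cast h6
  have hE'Y : E' ⊆ Fintype.piFinset (fun l => Ioc ((u l : ℕ) : ℤ) ((u l : ℕ) + (H : ℤ))) := by
    intro h hh
    rw [hE'] at hh
    obtain ⟨h', hh', rfl⟩ := mem_image.1 hh
    rw [hE, mem_filter, hY, Fintype.mem_piFinset] at hh'
    rw [Fintype.mem_piFinset]
    intro l
    have h1 := mem_Ioc.1 (hh'.1 l)
    exact mem_Ioc.2 ⟨by exact_mod_cast h1.1, by exact_mod_cast h1.2⟩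
  obtain ⟨A, hinj, hAle, -, hAV⟩ := HB H hH (∑ l, u l) (fun l => ((u l : ℕ) : ℤ)) (fun l => by
    rw [Nat.abs_cast]
    exact_mod_cast Finset.single_le_sum (f := u) (fun _ _ => Nat.zero_le _) (mem_univ l))
    E' hE'Y (by rw [hE'c]; exact hEc)
  obtain ⟨S, σ, hS, hcnt⟩ := hN₀ N hN (fun g i => A (e g) i) (by
      intro z z' h
      have h2 := hinj (a₁ := (e z.1, z.2)) (a₂ := (e z'.1, z'.2)) h
      have h3 : e z.1 = e z'.1 := (Prod.ext_iff.1 h2).1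
      have h4 : z.2 = z'.2 := (Prod.ext_iff.1 h2).2
      exact Prod.ext (e.injective h3) h4)
    (fun g i => by
      rw [hW]
      exact hAle _ i)
  -- the words in S
  obtain ⟨V, hV, hVS⟩ := hM (S.map e.toEmbedding) (by
    rw [card_map, hT, div_pow, div_mul_eq_mul_div, div_le_iff₀ (by positivity)]
    have h5 : ((5 : ℝ) ^ R * T : ℝ) ≤ 18 ^ R * S.card := by exact_mod_cast hS
    linarith)
  have hVS' : ∀ i, e.symm (pt V i) ∈ S := by
    intro i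
    obtain ⟨g, hg, hg2⟩ := mem_map.1 (hVS i)
    have h1 : e g = pt V i := hg2
    rw [← h1, e.symm_apply_apply]
    exact hg
  obtain ⟨h₀, hhE, hhl⟩ := hAV V hV (fun t => σ (e.symm t))
  rw [hE'] at hhE
  obtain ⟨h, hhE1, rfl⟩ := mem_image.1 hhE
  rw [hE, mem_filter] at hhE1
  apply hhE1.2
  rw [hGood]
  refine ⟨act V, act_pos V hV, act_le V, fun ρ => (hcnt ρ).trans ?_⟩
  rw [Nat.cast_le]
  -- the injection
  obtain ⟨P, hP⟩ : ∃ P : Fin (k + 1) → ℕ, ∀ i, P i = A (pt V i) (σ (e.symm (pt V i))) :=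
    ⟨fun i => A (pt V i) (σ (e.symm (pt V i))), fun _ => rfl⟩
  have hPmem : ∀ i, P i ∈ S.image (fun g => A (e g) (σ g)) := by
    intro i
    refine mem_image.2 ⟨e.symm (pt V i), hVS' i, ?_⟩
    rw [hP, e.apply_symm_apply]
  have hPd : ∀ l : Fin k, P l.succ = P 0 + act V * h l := by
    intro l
    have h1 := hhl l
    rw [← hP, ← hP] at h1
    have h2 : (P l.succ : ℤ) = ((P 0 + act V * h l : ℕ) : ℤ) := by
      push_cast
      linarith
    exact_mod_cast h2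
  have hP0 : P 0 ≤ W := by
    rw [hP, hW]
    exact hAle _ _
  have hb1 : 1 ≤ b ρ := by have := (hbc ρ).1; omega
  unfold cntG count
  rw [← card_image_of_injective _ (f := fun n : ℕ => b ρ ^ P 0 * n) (by
    intro m m' hm
    exact Nat.eq_of_mul_eq_mul_left (by positivity) hm)]
  apply card_le_card
  intro x hx
  obtain ⟨n, hn, rfl⟩ := mem_image.1 hx
  obtain ⟨h1, h2⟩ := mem_filter.1 hn
  rw [mem_Icc] at h1
  have hbP : 1 ≤ b ρ ^ P 0 := Nat.one_le_pow _ _ hb1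
  have hbP2 : b ρ ^ P 0 ≤ Q := (Nat.pow_le_pow_right hb1 hP0).trans (hbQ ρ)
  refine mem_filter.2 ⟨mem_Icc.2 ⟨?_, ?_⟩, ?_, fun l => ?_⟩
  · calc N ρ ≤ n := h1.1
      _ = 1 * n := (one_mul n).symm
      _ ≤ b ρ ^ P 0 * n := Nat.mul_le_mul_right _ hbP
  · calc b ρ ^ P 0 * n ≤ Q * (D * N ρ) := Nat.mul_le_mul hbP2 h1.2
      _ = Q * D * N ρ := by ring
  · have h3 := h2 _ (hPmem 0)
    have e1 : (((b ρ ^ P 0 * n : ℕ) : ℤ) + c ρ) = (b ρ : ℤ) ^ P 0 * (n : ℤ) + c ρ := by push_cast; ring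
    rw [e1]
    exact h3
  · have h3 := h2 _ (hPmem l.succ)
    have e1 : ((b ρ : ℤ) ^ (act V * h l) * ((b ρ ^ P 0 * n : ℕ) : ℤ) + c ρ) =
        (b ρ : ℤ) ^ P l.succ * (n : ℤ) + c ρ := by
      rw [hPd, pow_add]
      push_cast
      ring
    rw [e1]
    exact h3

end Pool.Agent.J4H78.CC
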